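import Pool.Agent.H75.UB.Disc

set_option autoImplicit false
set_option linter.unusedSectionVars false

/-! Powers of the kernel majorant: sums over grids and averages over finer grids. -/

open Finset

open scoped Classical

namespace Pool.Agent.H50.UBX

open Pool.Agent.H75.UB

noncomputable section

variable {d : ℕ}

/-- the normalised kernel majorant -/
def kp (j : ℕ) (t : ℝ) : ℝ := My j t / 2 ^ j

lemma kp_nonneg (j : ℕ) (t : ℝ) : 0 ≤ kp j t := div_nonneg (My_nonneg j t) (by positivity)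

lemma My_neg (j : ℕ) (t : ℝ) : My j (-t) = My j t := by
  unfold My
  refine Finset.sum_congr rfl (fun i _ => ?_)
  simp only [near_neg_iff]

lemma kp_neg (j : ℕ) (t : ℝ) : kp j (-t) = kp j t := by
  unfold kp
  rw [My_neg]

lemma near_zero (t : ℝ) : near t (1 / 2 ^ 0) := by
  refine ⟨round t, ?_⟩
  have := abs_sub_round t
  rw [pow_zero, div_one]
  linarith

lemma kp_le (j : ℕ) (t : ℝ) : kp j t ≤ 2 := by
  unfold kp
  rw [div_le_iff₀ (by positivity)]
  unfold My
  calc ∑ i ∈ range (j + 1), (if near t (1 / 2 ^ i) then (2 : ℝ) ^ i else 0)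
      ≤ ∑ i ∈ range (j + 1), (2 : ℝ) ^ i := by
        refine Finset.sum_le_sum (fun i _ => ?_)
        split_ifs
        · exact le_rfl
        · positivity
    _ ≤ 2 * 2 ^ j := by
        rw [geom_sum_eq (by norm_num)]
        norm_num
        rw [pow_succ]
        linarith

lemma pow_sub_rpow (lam : ℝ) (i j : ℕ) (hij : i ≤ j) :
    (((2 : ℝ) ^ i) / 2 ^ j) ^ lam = ((2 : ℝ) ^ (-lam)) ^ (j - i) := by
  have h1 : ((2 : ℝ) ^ i) / 2 ^ j = (2 : ℝ) ^ (-((j - i : ℕ) : ℝ)) := by
    rw [Real.rpow_neg (by norm_num), Real.rpow_natCast, div_eq_iff (by positivity), ← div_eq_inv_mul,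
      eq_div_iff (by positivity), ← pow_add]
    congr 1
    omega
  rw [h1, ← Real.rpow_natCast, ← Real.rpow_mul (by norm_num), ← Real.rpow_mul (by norm_num)]
  congr 1
  ring

lemma kp_pow (lam : ℝ) (hl : 0 < lam) (j : ℕ) (t : ℝ) :
    kp j t ^ lam ≤ 2 ^ lam * ∑ i ∈ range (j + 1),
      (if near t (1 / 2 ^ i) then ((2 : ℝ) ^ (-lam)) ^ (j - i) else 0) := by
  set i0 := Nat.findGreatest (fun i => near t (1 / 2 ^ i)) j with hi0
  have hn : near t (1 / 2 ^ i0) :=
    Nat.findGreatest_spec (P := fun i => near t (1 / 2 ^ i)) (Nat.zero_le j) (near_zero t)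
  have hle : i0 ≤ j := Nat.findGreatest_le j
  have h1 : My j t ≤ 2 * 2 ^ i0 := by
    unfold My
    have h2 : ∑ i ∈ range (j + 1), (if near t (1 / 2 ^ i) then (2 : ℝ) ^ i else 0)
        ≤ ∑ i ∈ range (i0 + 1), (2 : ℝ) ^ i := by
      rw [← Finset.sum_filter]
      refine Finset.sum_le_sum_of_subset_of_nonneg ?_ (fun i _ _ => by positivity)
      intro i hi
      rw [mem_filter, mem_range] at hi
      rw [mem_range]
      have := Nat.le_findGreatest (P := fun i => near t (1 / 2 ^ i)) (by omega : i ≤ j) hi.2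
      omega
    refine h2.trans ?_
    rw [geom_sum_eq (by norm_num)]
    norm_num
    rw [pow_succ]
    linarith
  have h3 : kp j t ≤ 2 * (2 ^ i0 / 2 ^ j) := by
    unfold kp
    rw [← mul_div_assoc]
    exact div_le_div_of_nonneg_right h1 (by positivity)
  have h4 : kp j t ^ lam ≤ 2 ^ lam * ((2 : ℝ) ^ (-lam)) ^ (j - i0) := by
    refine (Real.rpow_le_rpow (kp_nonneg j t) h3 hl.le).trans (le_of_eq ?_)
    rw [Real.mul_rpow (by norm_num) (by positivity), pow_sub_rpow lam i0 j hle]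
  refine h4.trans ?_
  refine mul_le_mul_of_nonneg_left ?_ (by positivity)
  have h5 := Finset.single_le_sum
    (f := fun i => if near t (1 / 2 ^ i) then ((2 : ℝ) ^ (-lam)) ^ (j - i) else 0)
    (s := range (j + 1)) (fun i _ => by split_ifs <;> positivity)
    (mem_range.2 (Nat.lt_succ_of_le hle))
  simp only [if_pos hn] at h5
  exact h5

/-- constant -/
def CA (lam : ℝ) : ℝ := 2 ^ lam * (3 / (1 - 2 ^ (1 - lam)))

lemma two_rpow_lt (lam : ℝ) (hl : 1 < lam) : (2 : ℝ) ^ (1 - lam) < 1 :=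
  Real.rpow_lt_one_of_one_lt_of_neg (by norm_num) (by linarith)

lemma CA_pos (lam : ℝ) (hl : 1 < lam) : 0 < CA lam := by
  unfold CA
  have := two_rpow_lt lam hl
  have h2 : 0 < 1 - (2 : ℝ) ^ (1 - lam) := by linarith
  positivity

lemma geo_le (q : ℝ) (hq0 : 0 ≤ q) (hq : q < 1) (n : ℕ) : ∑ i ∈ range n, q ^ i ≤ 1 / (1 - q) := by
  rw [geom_sum_eq (by linarith : q ≠ 1)]
  rw [show (q ^ n - 1) / (q - 1) = (1 - q ^ n) / (1 - q) by
    rw [← neg_div_neg_eq]
    congr 1 <;> ring]
  have : 0 ≤ q ^ n := by positivity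
  exact div_le_div_of_nonneg_right (by linarith) (by linarith)

/-- averages over finer grids -/
lemma kp_avg (lam : ℝ) (hl : 1 < lam) (j m : ℕ) (hjm : j ≤ m) (t : ℝ) :
    (∑ w ∈ range (2 ^ (m + 2)), kp j (t + (w : ℝ) / (2 ^ (m + 2) : ℕ)) ^ lam)
      / (2 ^ (m + 2) : ℕ) ≤ CA lam / 2 ^ j := by
  have hN : (0 : ℝ) < (2 ^ (m + 2) : ℕ) := by positivity
  set q : ℝ := (2 : ℝ) ^ (-lam) with hq
  have hq0 : 0 < q := by positivity
  have h2q : 2 * q = (2 : ℝ) ^ (1 - lam) := by
    rw [hq, show (1 - lam) = 1 + (-lam) by ring, Real.rpow_add (by norm_num), Real.rpow_one]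
  have hlt := two_rpow_lt lam hl
  rw [div_le_iff₀ hN]
  calc ∑ w ∈ range (2 ^ (m + 2)), kp j (t + (w : ℝ) / (2 ^ (m + 2) : ℕ)) ^ lam
      ≤ ∑ w ∈ range (2 ^ (m + 2)), 2 ^ lam * ∑ i ∈ range (j + 1),
        (if near (t + (w : ℝ) / (2 ^ (m + 2) : ℕ)) (1 / 2 ^ i) then q ^ (j - i) else 0) :=
        Finset.sum_le_sum (fun w _ => kp_pow lam (by linarith) j _)
    _ = 2 ^ lam * ∑ i ∈ range (j + 1), q ^ (j - i) *
        (#((range (2 ^ (m + 2))).filter (fun w : ℕ =>
          near (t + (w : ℝ) / (2 ^ (m + 2) : ℕ)) (1 / 2 ^ i))) : ℝ) := by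
        rw [← Finset.mul_sum, Finset.sum_comm]
        congr 1
        refine Finset.sum_congr rfl (fun i _ => ?_)
        rw [← Finset.sum_filter, Finset.sum_const, nsmul_eq_mul, mul_comm]
    _ ≤ 2 ^ lam * ∑ i ∈ range (j + 1), q ^ (j - i) * (3 * (1 / 2 ^ i) * (2 ^ (m + 2) : ℕ)) := by
        refine mul_le_mul_of_nonneg_left (Finset.sum_le_sum (fun i hi => ?_)) (by positivity)
        refine mul_le_mul_of_nonneg_left ?_ (by positivity)
        have h1 := arc_count (2 ^ (m + 2)) (by positivity) t (1 / 2 ^ i) (by positivity)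
        refine h1.trans ?_
        have h2 : (1 : ℝ) ≤ 1 / 2 ^ i * (2 ^ (m + 2) : ℕ) := by
          rw [one_div, ← div_eq_inv_mul, le_div_iff₀ (by positivity), one_mul]
          push_cast
          rw [mem_range] at hi
          exact pow_le_pow_right₀ (by norm_num) (by omega)
        linarith
    _ = 2 ^ lam * (3 * (∑ i ∈ range (j + 1), (2 * q) ^ (j - i)) / 2 ^ j) * (2 ^ (m + 2) : ℕ) := by
        rw [mul_assoc (2 ^ lam)]
        congr 1
        rw [Finset.mul_sum, Finset.sum_div, Finset.sum_mul]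
        refine Finset.sum_congr rfl (fun i hi => ?_)
        rw [mem_range] at hi
        have h3 : (2 : ℝ) ^ j = 2 ^ (j - i) * 2 ^ i := by
          rw [← pow_add]
          congr 1
          omega
        rw [h3, mul_pow]
        field_simp
    _ ≤ 2 ^ lam * (3 * (1 / (1 - 2 * q)) / 2 ^ j) * (2 ^ (m + 2) : ℕ) := by
        have h4 : ∑ i ∈ range (j + 1), (2 * q) ^ (j - i) ≤ 1 / (1 - 2 * q) := by
          have e : ∑ i ∈ range (j + 1), (2 * q) ^ (j - i) = ∑ i ∈ range (j + 1), (2 * q) ^ i := by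
            rw [← Finset.sum_range_reflect (fun i => (2 * q) ^ i) (j + 1)]
            refine Finset.sum_congr rfl (fun i hi => ?_)
            rw [mem_range] at hi
            congr 1
          rw [e]
          exact geo_le (2 * q) (by positivity) (by rw [h2q]; exact hlt) (j + 1)
        gcongr
    _ = CA lam / 2 ^ j * (2 ^ (m + 2) : ℕ) := by
        unfold CA
        rw [h2q]
        ring

end

end Pool.Agent.H50.UBX
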