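import Pool.Agent.H50.UBX.LKer

set_option autoImplicit false
set_option linter.unusedSectionVars false

/-! Products of the kernel majorants, the functions `uu` and the pair estimate. -/

open Finset

open scoped Classical

namespace Pool.Agent.H50.UBX

open Pool.Agent.H75.UB

noncomputable section

variable {d : ℕ}

/-- product kernel -/
def ks (s : Fin d → ℕ) (x : Fin d → ℝ) : ℝ := ∏ i, kp (s i) (x i)

lemma ks_nonneg (s : Fin d → ℕ) (x : Fin d → ℝ) : 0 ≤ ks s x :=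
  Finset.prod_nonneg (fun i _ => kp_nonneg _ _)

lemma ks_neg (s : Fin d → ℕ) (x : Fin d → ℝ) : ks s (-x) = ks s x := by
  unfold ks
  exact Finset.prod_congr rfl (fun i _ => kp_neg _ _)

lemma ks_rpow (s : Fin d → ℕ) (x : Fin d → ℝ) (lam : ℝ) : ks s x ^ lam = ∏ i, kp (s i) (x i) ^ lam := by
  unfold ks
  rw [Real.finsetProd_rpow _ _ (fun i _ => kp_nonneg _ _)]

lemma gp_NN (m : Fin d → ℕ) (w : Fin d → ℕ) (i : Fin d) :
    gp (NN m) w i = (w i : ℝ) / (2 ^ (m i + 2) : ℕ) := by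
  unfold gp NN
  rfl

lemma NT_eq (m : Fin d → ℕ) : (NT m : ℝ) = ∏ i, ((2 ^ (m i + 2) : ℕ) : ℝ) := by
  unfold NT NN
  push_cast
  rfl

lemma ks_grid (lam : ℝ) (hl : 1 < lam) (s : Fin d → ℕ) (x : Fin d → ℝ) :
    ∑ ζ ∈ grid s, ks s (x + gp (NN s) ζ) ^ lam ≤ (4 * CA lam) ^ d := by
  have h1 : ∑ ζ ∈ grid s, ks s (x + gp (NN s) ζ) ^ lam
      = ∏ i, ∑ w ∈ range (2 ^ (s i + 2)), kp (s i) (x i + (w : ℝ) / (2 ^ (s i + 2) : ℕ)) ^ lam := by
    rw [Finset.prod_univ_sum]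
    refine Finset.sum_congr rfl (fun ζ _ => ?_)
    rw [ks_rpow]
    refine Finset.prod_congr rfl (fun i _ => ?_)
    rw [Pi.add_apply, gp_NN]
  rw [h1]
  have hC := CA_pos lam hl
  calc _ ≤ ∏ _i : Fin d, (4 * CA lam) := by
        refine Finset.prod_le_prod (fun i _ => Finset.sum_nonneg (fun w _ =>
          Real.rpow_nonneg (kp_nonneg _ _) _)) (fun i _ => ?_)
        have h2 := kp_avg lam hl (s i) (s i) le_rfl (x i)
        have hN : (0 : ℝ) < (2 ^ (s i + 2) : ℕ) := by positivity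
        rw [div_le_iff₀ hN] at h2
        refine h2.trans (le_of_eq ?_)
        push_cast
        rw [pow_add]
        field_simp
        norm_num
    _ = _ := by rw [Finset.prod_const, Finset.card_univ, Fintype.card_fin]

lemma ks_avg (lam : ℝ) (hl : 1 < lam) (s m : Fin d → ℕ) (hsm : ∀ i, s i ≤ m i) (x : Fin d → ℝ) :
    (∑ w ∈ grid m, ks s (x + gp (NN m) w) ^ lam) / NT m ≤ CA lam ^ d / 2 ^ (∑ i, s i) := by
  have h1 : (∑ w ∈ grid m, ks s (x + gp (NN m) w) ^ lam) / NT m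
      = ∏ i, (∑ w ∈ range (2 ^ (m i + 2)), kp (s i) (x i + (w : ℝ) / (2 ^ (m i + 2) : ℕ)) ^ lam)
        / (2 ^ (m i + 2) : ℕ) := by
    rw [Finset.prod_div_distrib, Finset.prod_univ_sum, NT_eq]
    congr 1
    refine Finset.sum_congr rfl (fun ζ _ => ?_)
    rw [ks_rpow]
    refine Finset.prod_congr rfl (fun i _ => ?_)
    rw [Pi.add_apply, gp_NN]
  rw [h1]
  have hC := CA_pos lam hl
  calc _ ≤ ∏ i : Fin d, (CA lam / 2 ^ (s i)) := by
        refine Finset.prod_le_prod (fun i _ => div_nonneg (Finset.sum_nonneg (fun w _ =>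
          Real.rpow_nonneg (kp_nonneg _ _) _)) (by positivity)) (fun i _ => ?_)
        exact kp_avg lam hl (s i) (m i) (hsm i) (x i)
    _ = _ := by
        rw [Finset.prod_div_distrib, Finset.prod_const, Finset.card_univ, Fintype.card_fin,
          Finset.prod_pow_eq_pow_sum]

lemma kp_pair (lam : ℝ) (hl : 1 < lam) (a b : ℕ) (x y : ℝ) :
    (∑ w ∈ range (2 ^ (max a b + 2)), kp a (x + (w : ℝ) / (2 ^ (max a b + 2) : ℕ)) ^ lam
      * kp b (y + (w : ℝ) / (2 ^ (max a b + 2) : ℕ)) ^ lam) / (2 ^ (max a b + 2) : ℕ)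
      ≤ 2 ^ lam * CA lam / 2 ^ (max a b) := by
  have h0 : ∀ j t, kp j t ^ lam ≤ 2 ^ lam := fun j t =>
    Real.rpow_le_rpow (kp_nonneg j t) (kp_le j t) (by linarith)
  have h00 : ∀ j t, 0 ≤ kp j t ^ lam := fun j t => Real.rpow_nonneg (kp_nonneg j t) _
  have hN : (0 : ℝ) < (2 ^ (max a b + 2) : ℕ) := by positivity
  rcases le_total a b with h | h
  · rw [max_eq_right h] at hN ⊢
    calc _ ≤ (∑ w ∈ range (2 ^ (b + 2)), 2 ^ lam * kp b (y + (w : ℝ) / (2 ^ (b + 2) : ℕ)) ^ lam)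
          / (2 ^ (b + 2) : ℕ) := by
          refine div_le_div_of_nonneg_right (Finset.sum_le_sum (fun w _ => ?_)) hN.le
          exact mul_le_mul_of_nonneg_right (h0 _ _) (h00 _ _)
      _ = 2 ^ lam * ((∑ w ∈ range (2 ^ (b + 2)), kp b (y + (w : ℝ) / (2 ^ (b + 2) : ℕ)) ^ lam)
          / (2 ^ (b + 2) : ℕ)) := by
          rw [← Finset.mul_sum]
          ring
      _ ≤ 2 ^ lam * (CA lam / 2 ^ b) :=
          mul_le_mul_of_nonneg_left (kp_avg lam hl b b le_rfl y) (by positivity)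
      _ = _ := by ring
  · rw [max_eq_left h] at hN ⊢
    calc _ ≤ (∑ w ∈ range (2 ^ (a + 2)), kp a (x + (w : ℝ) / (2 ^ (a + 2) : ℕ)) ^ lam * 2 ^ lam)
          / (2 ^ (a + 2) : ℕ) := by
          refine div_le_div_of_nonneg_right (Finset.sum_le_sum (fun w _ => ?_)) hN.le
          exact mul_le_mul_of_nonneg_left (h0 _ _) (h00 _ _)
      _ = 2 ^ lam * ((∑ w ∈ range (2 ^ (a + 2)), kp a (x + (w : ℝ) / (2 ^ (a + 2) : ℕ)) ^ lam)
          / (2 ^ (a + 2) : ℕ)) := by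
          rw [← Finset.sum_mul]
          ring
      _ ≤ 2 ^ lam * (CA lam / 2 ^ a) :=
          mul_le_mul_of_nonneg_left (kp_avg lam hl a a le_rfl x) (by positivity)
      _ = _ := by ring

/-- the common refinement -/
def mx (s t : Fin d → ℕ) : Fin d → ℕ := fun i => max (s i) (t i)

lemma ks_pair (lam : ℝ) (hl : 1 < lam) (s t : Fin d → ℕ) (x y : Fin d → ℝ) :
    (∑ w ∈ grid (mx s t), ks s (x + gp (NN (mx s t)) w) ^ lam * ks t (y + gp (NN (mx s t)) w) ^ lam)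
      / NT (mx s t) ≤ (2 ^ lam * CA lam) ^ d / 2 ^ (∑ i, max (s i) (t i)) := by
  have h1 : (∑ w ∈ grid (mx s t), ks s (x + gp (NN (mx s t)) w) ^ lam
      * ks t (y + gp (NN (mx s t)) w) ^ lam) / NT (mx s t)
      = ∏ i, (∑ w ∈ range (2 ^ (max (s i) (t i) + 2)),
        kp (s i) (x i + (w : ℝ) / (2 ^ (max (s i) (t i) + 2) : ℕ)) ^ lam
        * kp (t i) (y i + (w : ℝ) / (2 ^ (max (s i) (t i) + 2) : ℕ)) ^ lam)
        / (2 ^ (max (s i) (t i) + 2) : ℕ) := by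
    rw [Finset.prod_div_distrib, Finset.prod_univ_sum, NT_eq]
    congr 1
    refine Finset.sum_congr rfl (fun ζ _ => ?_)
    rw [ks_rpow, ks_rpow, ← Finset.prod_mul_distrib]
    refine Finset.prod_congr rfl (fun i _ => ?_)
    rw [Pi.add_apply, Pi.add_apply, gp_NN]
    rfl
  rw [h1]
  have hC := CA_pos lam hl
  calc _ ≤ ∏ i : Fin d, (2 ^ lam * CA lam / 2 ^ (max (s i) (t i))) := by
        refine Finset.prod_le_prod (fun i _ => div_nonneg (Finset.sum_nonneg (fun w _ =>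
          mul_nonneg (Real.rpow_nonneg (kp_nonneg _ _) _) (Real.rpow_nonneg (kp_nonneg _ _) _)))
          (by positivity)) (fun i _ => ?_)
        exact kp_pair lam hl (s i) (t i) (x i) (y i)
    _ = _ := by
        rw [Finset.prod_div_distrib, Finset.prod_const, Finset.card_univ, Fintype.card_fin,
          Finset.prod_pow_eq_pow_sum]

/-- the sum of the kernels over a list -/
def uu (s : Fin d → ℕ) (Z : Finset (Fin d → ℕ)) (x : Fin d → ℝ) : ℝ :=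
  ∑ ζ ∈ Z, ks s (gp (NN s) ζ - x)

lemma uu_nonneg (s : Fin d → ℕ) (Z : Finset (Fin d → ℕ)) (x : Fin d → ℝ) : 0 ≤ uu s Z x :=
  Finset.sum_nonneg (fun ζ _ => ks_nonneg _ _)

lemma one_le_CA (lam : ℝ) (hl : 1 < lam) : 1 ≤ CA lam := by
  unfold CA
  have h1 := two_rpow_lt lam hl
  have h3 : (0 : ℝ) < 2 ^ (1 - lam) := by positivity
  have h2 : (1 : ℝ) ≤ 2 ^ lam := Real.one_le_rpow (by norm_num) (by linarith)
  have h4 : (1 : ℝ) ≤ 3 / (1 - 2 ^ (1 - lam)) := by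
    rw [le_div_iff₀ (by linarith)]
    linarith
  nlinarith

lemma uu_pow (lam : ℝ) (hl : 1 < lam) (s : Fin d → ℕ) (Z : Finset (Fin d → ℕ)) (K : ℕ)
    (hK : #Z ≤ K) (x : Fin d → ℝ) :
    uu s Z x ^ lam ≤ (K : ℝ) ^ (lam - 1) * ∑ ζ ∈ Z, ks s (gp (NN s) ζ - x) ^ lam := by
  unfold uu
  refine (Real.rpow_sum_le_const_mul_sum_rpow_of_nonneg Z hl.le (fun ζ _ => ks_nonneg _ _)).trans ?_
  refine mul_le_mul_of_nonneg_right ?_ (Finset.sum_nonneg (fun ζ _ =>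
    Real.rpow_nonneg (ks_nonneg _ _) _))
  exact Real.rpow_le_rpow (Nat.cast_nonneg _) (by exact_mod_cast hK) (by linarith)

lemma sum_list_le (lam : ℝ) (hl : 1 < lam) (s : Fin d → ℕ) (Z : Finset (Fin d → ℕ))
    (hZ : Z ⊆ grid s) (x : Fin d → ℝ) :
    ∑ ζ ∈ Z, ks s (gp (NN s) ζ - x) ^ lam ≤ (4 * CA lam) ^ d := by
  refine le_trans (Finset.sum_le_sum_of_subset_of_nonneg hZ (fun ζ _ _ =>
    Real.rpow_nonneg (ks_nonneg _ _) _)) ?_
  have h := ks_grid lam hl s (-x)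
  refine le_trans (le_of_eq ?_) h
  refine Finset.sum_congr rfl (fun ζ _ => ?_)
  congr 2
  funext i
  simp only [Pi.sub_apply, Pi.add_apply, Pi.neg_apply]
  ring

lemma uu_sup (lam : ℝ) (hl : 1 < lam) (s : Fin d → ℕ) (Z : Finset (Fin d → ℕ)) (K : ℕ)
    (hK1 : 1 ≤ K) (hK : #Z ≤ K) (hZ : Z ⊆ grid s) (x : Fin d → ℝ) :
    uu s Z x ≤ (K : ℝ) ^ (lam - 1) * (4 * CA lam) ^ d := by
  have hK1' : (1 : ℝ) ≤ K := by exact_mod_cast hK1
  have h1 : uu s Z x ^ lam ≤ (K : ℝ) ^ (lam - 1) * (4 * CA lam) ^ d :=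
    (uu_pow lam hl s Z K hK x).trans
      (mul_le_mul_of_nonneg_left (sum_list_le lam hl s Z hZ x) (by positivity))
  set B := (K : ℝ) ^ (lam - 1) * (4 * CA lam) ^ d with hB
  have hB1 : 1 ≤ B := by
    have e1 : 1 ≤ (K : ℝ) ^ (lam - 1) := Real.one_le_rpow hK1' (by linarith)
    have e2 : 1 ≤ (4 * CA lam) ^ d := one_le_pow₀ (by linarith [one_le_CA lam hl])
    nlinarith
  by_contra hc
  rw [not_le] at hc
  have h2 : B < uu s Z x ^ lam := by
    calc B < uu s Z x := hc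
      _ = uu s Z x ^ (1 : ℝ) := (Real.rpow_one _).symm
      _ ≤ uu s Z x ^ lam := Real.rpow_le_rpow_of_exponent_le (by linarith) hl.le
  linarith

lemma sum_max (l : ℕ) (s t : Fin d → ℕ) (hs : s ∈ Sl d l) (ht : t ∈ Sl d l) :
    (2 : ℝ) ^ (∑ i, max (s i) (t i)) = 2 ^ l * (Real.sqrt 2) ^ (dst s t) := by
  have h1 := dst_min s t
  have h2 : ∑ i, max (s i) (t i) + ∑ i, min (s i) (t i) = ∑ i, s i + ∑ i, t i := by
    rw [← Finset.sum_add_distrib, ← Finset.sum_add_distrib]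
    exact Finset.sum_congr rfl (fun i _ => max_add_min _ _)
  rw [mem_Sl.1 hs, mem_Sl.1 ht] at h1 h2
  have h3 : 2 * ∑ i, max (s i) (t i) = 2 * l + dst s t := by omega
  have h4 : ∀ n : ℕ, (2 : ℝ) ^ n = (Real.sqrt 2) ^ (2 * n) := by
    intro n
    rw [pow_mul, Real.sq_sqrt (by norm_num)]
  rw [h4, h4 l, h3, pow_add]

lemma min_rpow (x δ : ℝ) (hx : 0 < x) (hδ0 : 0 < δ) (hδ1 : δ ≤ 1) : min 1 x ≤ x ^ δ := by
  rcases le_total 1 x with h | h
  · rw [min_eq_left h]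
    exact Real.one_le_rpow h hδ0.le
  · rw [min_eq_right h]
    calc x = x ^ (1 : ℝ) := (Real.rpow_one _).symm
      _ ≤ x ^ δ := Real.rpow_le_rpow_of_exponent_ge hx h hδ1

/-- decay ratio -/
def y0 (δ : ℝ) : ℝ := ((Real.sqrt 2)⁻¹) ^ δ

lemma y0_pos (δ : ℝ) : 0 < y0 δ := by
  unfold y0
  positivity

/-- constant -/
def C3 (d : ℕ) (lam : ℝ) : ℝ := (4 * CA lam) ^ d * (2 ^ lam * CA lam) ^ d

lemma C3_pos (lam : ℝ) (hl : 1 < lam) : 0 < C3 d lam := by
  have := CA_pos lam hl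
  unfold C3
  positivity

lemma pair_inner (lam δ : ℝ) (hl : 1 < lam) (hδ0 : 0 < δ) (hδ1 : δ ≤ 1) (l : ℕ)
    (s t : Fin d → ℕ) (hs : s ∈ Sl d l) (ht : t ∈ Sl d l) (Zt : Finset (Fin d → ℕ))
    (hZt : Zt ⊆ grid t) (K : ℕ) (hK1 : 1 ≤ K) (hKt : #Zt ≤ K) (x : Fin d → ℝ) (ζ : Fin d → ℕ) :
    ∑ ζ' ∈ Zt, (∑ w ∈ grid (mx s t), ks s (gp (NN s) ζ - (x + gp (NN (mx s t)) w)) ^ lam
      * ks t (gp (NN t) ζ' - (x + gp (NN (mx s t)) w)) ^ lam) / NT (mx s t)
      ≤ C3 d lam / 2 ^ l * ((K : ℝ) ^ δ * (y0 δ) ^ (dst s t)) := by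
  have hCA := one_le_CA lam hl
  have hCA0 : 0 < CA lam := by linarith
  have hKr : (1 : ℝ) ≤ K := by exact_mod_cast hK1
  have hN : (0 : ℝ) < NT (mx s t) := by exact_mod_cast NT_pos (mx s t)
  have h2l : (1 : ℝ) ≤ 2 ^ lam := Real.one_le_rpow (by norm_num) (by linarith)
  have hc1 : (1 : ℝ) ≤ (4 * CA lam) ^ d := one_le_pow₀ (by linarith)
  have hc2 : (1 : ℝ) ≤ (2 ^ lam * CA lam) ^ d := one_le_pow₀ (by nlinarith)
  have heq : ∀ (s : Fin d → ℕ) (ζ : Fin d → ℕ) (w : Fin d → ℝ),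
      ks s (gp (NN s) ζ - (x + w)) = ks s ((x - gp (NN s) ζ) + w) := by
    intro s ζ w
    rw [← ks_neg]
    congr 1
    funext i
    simp only [Pi.sub_apply, Pi.add_apply, Pi.neg_apply]
    ring
  -- first bound
  have hb1 : ∑ ζ' ∈ Zt, (∑ w ∈ grid (mx s t), ks s (gp (NN s) ζ - (x + gp (NN (mx s t)) w)) ^ lam
      * ks t (gp (NN t) ζ' - (x + gp (NN (mx s t)) w)) ^ lam) / NT (mx s t)
      ≤ C3 d lam / 2 ^ l := by
    rw [← Finset.sum_div, Finset.sum_comm]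
    simp only [← Finset.mul_sum]
    calc _ ≤ (∑ w ∈ grid (mx s t), ks s (gp (NN s) ζ - (x + gp (NN (mx s t)) w)) ^ lam
          * (4 * CA lam) ^ d) / NT (mx s t) := by
          refine div_le_div_of_nonneg_right (Finset.sum_le_sum (fun w _ => ?_)) hN.le
          exact mul_le_mul_of_nonneg_left (sum_list_le lam hl t Zt hZt _)
            (Real.rpow_nonneg (ks_nonneg _ _) _)
      _ = (4 * CA lam) ^ d * ((∑ w ∈ grid (mx s t),
          ks s ((x - gp (NN s) ζ) + gp (NN (mx s t)) w) ^ lam) / NT (mx s t)) := by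
          rw [← Finset.sum_mul]
          simp only [heq]
          ring
      _ ≤ (4 * CA lam) ^ d * (CA lam ^ d / 2 ^ (∑ i, s i)) := by
          refine mul_le_mul_of_nonneg_left ?_ (by positivity)
          exact ks_avg lam hl s (mx s t) (fun i => le_max_left _ _) _
      _ ≤ C3 d lam / 2 ^ l := by
          rw [mem_Sl.1 hs, ← mul_div_assoc]
          unfold C3
          refine div_le_div_of_nonneg_right (mul_le_mul_of_nonneg_left ?_ (by positivity))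
            (by positivity)
          exact pow_le_pow_left₀ hCA0.le (by nlinarith) d
  -- second bound
  have hb2 : ∑ ζ' ∈ Zt, (∑ w ∈ grid (mx s t), ks s (gp (NN s) ζ - (x + gp (NN (mx s t)) w)) ^ lam
      * ks t (gp (NN t) ζ' - (x + gp (NN (mx s t)) w)) ^ lam) / NT (mx s t)
      ≤ C3 d lam / 2 ^ l * (K * ((Real.sqrt 2)⁻¹) ^ (dst s t)) := by
    calc _ ≤ ∑ ζ' ∈ Zt, (2 ^ lam * CA lam) ^ d / 2 ^ (∑ i, max (s i) (t i)) := by
          refine Finset.sum_le_sum (fun ζ' _ => ?_)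
          simp only [heq]
          exact ks_pair lam hl s t _ _
      _ = #Zt * ((2 ^ lam * CA lam) ^ d / 2 ^ (∑ i, max (s i) (t i))) := by
          rw [Finset.sum_const, nsmul_eq_mul]
      _ ≤ K * (C3 d lam / 2 ^ (∑ i, max (s i) (t i))) := by
          have e1 : ((#Zt : ℕ) : ℝ) ≤ K := by exact_mod_cast hKt
          have e2 : (2 ^ lam * CA lam) ^ d ≤ C3 d lam := by
            unfold C3
            nlinarith
          gcongr
      _ = _ := by
          rw [sum_max l s t hs ht, inv_pow]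
          field_simp
  have hx : (0 : ℝ) < K * ((Real.sqrt 2)⁻¹) ^ (dst s t) := by positivity
  have hC3 := C3_pos (d := d) lam hl
  calc _ ≤ C3 d lam / 2 ^ l * min 1 (K * ((Real.sqrt 2)⁻¹) ^ (dst s t)) := by
        rcases le_total 1 ((K : ℝ) * ((Real.sqrt 2)⁻¹) ^ (dst s t)) with h | h
        · rw [min_eq_left h, mul_one]
          exact hb1
        · rw [min_eq_right h]
          exact hb2
    _ ≤ C3 d lam / 2 ^ l * (K * ((Real.sqrt 2)⁻¹) ^ (dst s t)) ^ δ := by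
        refine mul_le_mul_of_nonneg_left (min_rpow _ δ hx hδ0 hδ1) (by positivity)
    _ = _ := by
        have e : (((Real.sqrt 2)⁻¹ ^ (dst s t) : ℝ)) ^ δ = (y0 δ) ^ (dst s t) := by
          unfold y0
          rw [← Real.rpow_natCast, ← Real.rpow_natCast, ← Real.rpow_mul (by positivity),
            ← Real.rpow_mul (by positivity), mul_comm ((dst s t : ℕ) : ℝ) δ]
        rw [Real.mul_rpow (by positivity) (by positivity), e]

/-- the pair estimate -/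
lemma pair_avg (a lam δ : ℝ) (hl : 1 < lam) (hla : lam ≤ a) (hδ0 : 0 < δ) (hδ1 : δ ≤ 1) (l : ℕ)
    (s t : Fin d → ℕ) (hs : s ∈ Sl d l) (ht : t ∈ Sl d l) (Zs Zt : Finset (Fin d → ℕ))
    (hZs : Zs ⊆ grid s) (hZt : Zt ⊆ grid t) (K : ℕ) (hK1 : 1 ≤ K) (hKs : #Zs ≤ K) (hKt : #Zt ≤ K)
    (x : Fin d → ℝ) :
    (∑ w ∈ grid (mx s t), (uu s Zs (x + gp (NN (mx s t)) w)
      * uu t Zt (x + gp (NN (mx s t)) w)) ^ a) / NT (mx s t)
      ≤ ((K : ℝ) ^ (lam - 1) * (4 * CA lam) ^ d) ^ (2 * (a - lam)) * ((K : ℝ) ^ (lam - 1)) ^ 2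
        * (#Zs * (C3 d lam / 2 ^ l * ((K : ℝ) ^ δ * (y0 δ) ^ (dst s t)))) := by
  have hKr : (1 : ℝ) ≤ K := by exact_mod_cast hK1
  have hN : (0 : ℝ) < NT (mx s t) := by exact_mod_cast NT_pos (mx s t)
  have hCA := CA_pos lam hl
  set B := (K : ℝ) ^ (lam - 1) * (4 * CA lam) ^ d with hB
  have hB0 : 0 < B := by positivity
  set k1 := (K : ℝ) ^ (lam - 1) with hk1
  have hk0 : 0 < k1 := by positivity
  have key : ∀ y : Fin d → ℝ, (uu s Zs y * uu t Zt y) ^ a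
      ≤ B ^ (2 * (a - lam)) * k1 ^ 2 * ∑ ζ ∈ Zs, ∑ ζ' ∈ Zt,
        ks s (gp (NN s) ζ - y) ^ lam * ks t (gp (NN t) ζ' - y) ^ lam := by
    intro y
    have e1 := uu_sup lam hl s Zs K hK1 hKs hZs y
    have e2 := uu_sup lam hl t Zt K hK1 hKt hZt y
    have e3 := uu_pow lam hl s Zs K hKs y
    have e4 := uu_pow lam hl t Zt K hKt y
    have n1 := uu_nonneg s Zs y
    have n2 := uu_nonneg t Zt y
    have n3 : 0 ≤ uu s Zs y * uu t Zt y := mul_nonneg n1 n2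
    have e5 : uu s Zs y * uu t Zt y ≤ B ^ 2 := by
      rw [pow_two]
      exact mul_le_mul e1 e2 n2 hB0.le
    have e6 : (uu s Zs y * uu t Zt y) ^ a
        = (uu s Zs y * uu t Zt y) ^ (a - lam) * (uu s Zs y * uu t Zt y) ^ lam := by
      rcases n3.eq_or_lt with h | h
      · rw [← h, Real.zero_rpow (by linarith : a ≠ 0), Real.zero_rpow (by linarith : lam ≠ 0),
          mul_zero]
      · rw [← Real.rpow_add h]
        congr 1
        ring
    rw [e6, Real.mul_rpow n1 n2 (z := lam)]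
    have e7 : (uu s Zs y * uu t Zt y) ^ (a - lam) ≤ B ^ (2 * (a - lam)) := by
      refine (Real.rpow_le_rpow n3 e5 (by linarith)).trans (le_of_eq ?_)
      rw [← Real.rpow_natCast B 2, ← Real.rpow_mul hB0.le]
      norm_num
    have e8 : uu s Zs y ^ lam * uu t Zt y ^ lam
        ≤ (k1 * ∑ ζ ∈ Zs, ks s (gp (NN s) ζ - y) ^ lam)
          * (k1 * ∑ ζ' ∈ Zt, ks t (gp (NN t) ζ' - y) ^ lam) :=
      mul_le_mul e3 e4 (Real.rpow_nonneg n2 _) (mul_nonneg hk0.le (Finset.sum_nonneg (fun ζ _ =>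
        Real.rpow_nonneg (ks_nonneg _ _) _)))
    calc _ ≤ B ^ (2 * (a - lam)) * ((k1 * ∑ ζ ∈ Zs, ks s (gp (NN s) ζ - y) ^ lam)
          * (k1 * ∑ ζ' ∈ Zt, ks t (gp (NN t) ζ' - y) ^ lam)) :=
          mul_le_mul e7 e8 (mul_nonneg (Real.rpow_nonneg n1 _) (Real.rpow_nonneg n2 _))
            (by positivity)
      _ = _ := by
          rw [mul_mul_mul_comm, Finset.sum_mul_sum]
          ring
  calc _ ≤ (∑ w ∈ grid (mx s t), B ^ (2 * (a - lam)) * k1 ^ 2 * ∑ ζ ∈ Zs, ∑ ζ' ∈ Zt,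
        ks s (gp (NN s) ζ - (x + gp (NN (mx s t)) w)) ^ lam
          * ks t (gp (NN t) ζ' - (x + gp (NN (mx s t)) w)) ^ lam) / NT (mx s t) :=
        div_le_div_of_nonneg_right (Finset.sum_le_sum (fun w _ => key _)) hN.le
    _ = B ^ (2 * (a - lam)) * k1 ^ 2 * ∑ ζ ∈ Zs, ∑ ζ' ∈ Zt,
        (∑ w ∈ grid (mx s t), ks s (gp (NN s) ζ - (x + gp (NN (mx s t)) w)) ^ lam
          * ks t (gp (NN t) ζ' - (x + gp (NN (mx s t)) w)) ^ lam) / NT (mx s t) := by
        rw [← Finset.mul_sum, mul_div_assoc]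
        congr 1
        rw [Finset.sum_comm, Finset.sum_div]
        refine Finset.sum_congr rfl (fun ζ _ => ?_)
        rw [Finset.sum_comm, Finset.sum_div]
    _ ≤ B ^ (2 * (a - lam)) * k1 ^ 2 * ∑ _ζ ∈ Zs,
        C3 d lam / 2 ^ l * ((K : ℝ) ^ δ * (y0 δ) ^ (dst s t)) := by
        refine mul_le_mul_of_nonneg_left (Finset.sum_le_sum (fun ζ _ => ?_)) (by positivity)
        exact pair_inner lam δ hl hδ0 hδ1 l s t hs ht Zt hZt K hK1 hKt x ζ
    _ = _ := by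
        rw [Finset.sum_const, nsmul_eq_mul]

end

end Pool.Agent.H50.UBX
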