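import Pool.Agent.H50.UBX.LProd
import Pool.Agent.H75.UB.Par

set_option autoImplicit false
set_option linter.unusedSectionVars false

/-! The level set inequality for the samples of the blocks of a layer. -/

open Finset ComplexConjugate MeasureTheory UnitAddTorus

open scoped Classical

namespace Pool.Agent.H50.UBX

open Pool.Agent.H75.UB

noncomputable section

local instance : MeasureSpace UnitAddCircle := ⟨AddCircle.haarAddCircle⟩

local instance : Measure.IsAddHaarMeasure (volume : Measure UnitAddCircle) :=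
  inferInstanceAs (Measure.IsAddHaarMeasure AddCircle.haarAddCircle)

local instance : IsProbabilityMeasure (volume : Measure UnitAddCircle) :=
  inferInstanceAs (IsProbabilityMeasure AddCircle.haarAddCircle)

variable {d : ℕ}

/-- pointwise inequality with real exponents -/
lemma pointwise_r (S : Finset (Fin d → ℕ)) (u : (Fin d → ℕ) → ℝ) (hu : ∀ s ∈ S, 0 ≤ u s)
    (ω : ℝ) (hω : 1 < ω) (C : ℝ) (hC0 : 0 ≤ C) (hC : ∀ s ∈ S, ∑ t ∈ S, (1 / ω) ^ (dst s t) ≤ C)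
    (a : ℝ) (ha : 0 < a) :
    (∑ s ∈ S, u s) ^ (2 * a) ≤ C ^ (2 * a) * ∑ s ∈ S, ∑ t ∈ S,
      (ω ^ (2 * a)) ^ (dst s t) * (u s * u t) ^ a := by
  rcases S.eq_empty_or_nonempty with hS | hS
  · rw [hS]
    simp only [Finset.sum_empty, mul_zero]
    rw [Real.zero_rpow (by linarith)]
  obtain ⟨s0, hs0, hmax⟩ := Finset.exists_max_image S u hS
  obtain ⟨⟨x, b⟩, hab, hmax2⟩ := Finset.exists_max_image (S ×ˢ S)
    (fun q => ω ^ (dst q.1 q.2) * Real.sqrt (u q.1 * u q.2)) (hS.product hS)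
  set T := ω ^ (dst x b) * Real.sqrt (u x * u b) with hT
  rw [mem_product] at hab
  have hω0 : 0 < ω := by linarith
  have hT0 : 0 ≤ T := by positivity
  have h1 : ∀ s ∈ S, u s ≤ T * (1 / ω) ^ (dst s0 s) := by
    intro s hs
    have e1 := hmax2 (s0, s) (mem_product.2 ⟨hs0, hs⟩)
    have e2 : u s ≤ Real.sqrt (u s0 * u s) := by
      refine Real.le_sqrt_of_sq_le ?_
      have := hmax s hs
      nlinarith [hu s hs]
    have e3 : ω ^ (dst s0 s) * Real.sqrt (u s0 * u s) ≤ T := e1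
    have e4 : 0 < ω ^ (dst s0 s) := by positivity
    calc u s ≤ Real.sqrt (u s0 * u s) := e2
      _ = (ω ^ (dst s0 s) * Real.sqrt (u s0 * u s)) * (1 / ω) ^ (dst s0 s) := by
          rw [one_div, inv_pow]
          field_simp
      _ ≤ T * (1 / ω) ^ (dst s0 s) := by gcongr
  have h2 : ∑ s ∈ S, u s ≤ T * C := by
    refine (Finset.sum_le_sum h1).trans ?_
    rw [← Finset.mul_sum]
    exact mul_le_mul_of_nonneg_left (hC s0 hs0) hT0
  have h0 : 0 ≤ ∑ s ∈ S, u s := Finset.sum_nonneg hu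
  have e1 : 0 ≤ u x * u b := mul_nonneg (hu x hab.1) (hu b hab.2)
  have h3 : T ^ (2 * a) = (ω ^ (2 * a)) ^ (dst x b) * (u x * u b) ^ a := by
    rw [hT, Real.mul_rpow (by positivity) (by positivity)]
    congr 1
    · rw [← Real.rpow_natCast, ← Real.rpow_natCast, ← Real.rpow_mul hω0.le, ← Real.rpow_mul hω0.le,
        mul_comm]
    · rw [Real.sqrt_eq_rpow, ← Real.rpow_mul e1]
      congr 1
      ring
  have h4 : (ω ^ (2 * a)) ^ (dst x b) * (u x * u b) ^ a ≤ ∑ s ∈ S, ∑ t ∈ S,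
      (ω ^ (2 * a)) ^ (dst s t) * (u s * u t) ^ a := by
    have hn : ∀ s ∈ S, ∀ t ∈ S, 0 ≤ (ω ^ (2 * a)) ^ (dst s t) * (u s * u t) ^ a := by
      intro s hs t ht
      have := mul_nonneg (hu s hs) (hu t ht)
      positivity
    refine le_trans ?_ (Finset.single_le_sum (f := fun s => ∑ t ∈ S,
      (ω ^ (2 * a)) ^ (dst s t) * (u s * u t) ^ a)
      (fun s hs => Finset.sum_nonneg (hn s hs)) hab.1)
    exact Finset.single_le_sum (f := fun t => (ω ^ (2 * a)) ^ (dst x t) * (u x * u t) ^ a)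
      (hn x hab.1) hab.2
  calc (∑ s ∈ S, u s) ^ (2 * a) ≤ (T * C) ^ (2 * a) := Real.rpow_le_rpow h0 h2 (by linarith)
    _ = C ^ (2 * a) * T ^ (2 * a) := by rw [Real.mul_rpow hT0 hC0]; ring
    _ ≤ _ := by
        rw [h3]
        exact mul_le_mul_of_nonneg_left h4 (by positivity)

/-- constant of the kernel -/
def AK (d : ℕ) (r : ℝ) (l : ℕ) : ℝ := 2 ^ d * (2 ^ r) ^ d * ((2 : ℝ) ^ l) ^ (1 - r)

lemma AK_pos (r : ℝ) (l : ℕ) : 0 < AK d r l := by
  unfold AK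
  positivity

lemma TK_ks (r : ℝ) (hr : 0 < r) (l : ℕ) (s : Fin d → ℕ) (hs : s ∈ Sl d l) (z x : Fin d → ℝ) :
    ‖TK r s z (pt x)‖ ≤ AK d r l * ks s (z - x) := by
  rw [TK_pt, kernel_prod, norm_prod]
  have h1 : ∀ i, ‖G1 r (s i) ((z - x) i)‖ ≤ 2 * Wr r (s i) * 2 ^ (s i) * kp (s i) ((z - x) i) := by
    intro i
    refine (G1_My r hr (s i) _).trans (le_of_eq ?_)
    unfold kp
    field_simp
  refine (Finset.prod_le_prod (fun i _ => norm_nonneg _) (fun i _ => h1 i)).trans (le_of_eq ?_)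
  unfold ks AK
  rw [Finset.prod_mul_distrib, Finset.prod_mul_distrib, Finset.prod_mul_distrib, prod_Wr r l s hs,
    Finset.prod_const, Finset.card_univ, Fintype.card_fin, Finset.prod_pow_eq_pow_sum,
    mem_Sl.1 hs]
  have e : ((2 : ℝ) ^ l) ^ (1 - r) = ((2 : ℝ) ^ l) ^ (-r) * 2 ^ l := by
    rw [show (1 - r) = -r + 1 by ring, Real.rpow_add (by positivity), Real.rpow_one]
  rw [e]
  ring

/-- the test function of a block -/
def psi (r : ℝ) (s : Fin d → ℕ) (Z : Finset (Fin d → ℕ)) (w : (Fin d → ℕ) → ℂ) : C(TT d, ℂ) :=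
  ∑ ζ ∈ Z, w ζ • TK r s (gp (NN s) ζ)

lemma psi_apply (r : ℝ) (s : Fin d → ℕ) (Z : Finset (Fin d → ℕ)) (w : (Fin d → ℕ) → ℂ)
    (y : TT d) : psi r s Z w y = ∑ ζ ∈ Z, w ζ * TK r s (gp (NN s) ζ) y := by
  unfold psi
  rw [ContinuousMap.coe_sum, Finset.sum_apply]
  rfl

lemma psi_le (r : ℝ) (hr : 0 < r) (l : ℕ) (s : Fin d → ℕ) (hs : s ∈ Sl d l)
    (Z : Finset (Fin d → ℕ)) (w : (Fin d → ℕ) → ℂ) (hw : ∀ ζ, ‖w ζ‖ ≤ 1) (x : Fin d → ℝ) :
    ‖psi r s Z w (pt x)‖ ≤ AK d r l * uu s Z x := by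
  rw [psi_apply]
  unfold uu
  rw [Finset.mul_sum]
  refine (norm_sum_le _ _).trans (Finset.sum_le_sum (fun ζ _ => ?_))
  rw [norm_mul]
  calc ‖w ζ‖ * ‖TK r s (gp (NN s) ζ) (pt x)‖ ≤ 1 * ‖TK r s (gp (NN s) ζ) (pt x)‖ :=
        mul_le_mul_of_nonneg_right (hw ζ) (norm_nonneg _)
    _ ≤ _ := by
        rw [one_mul]
        exact TK_ks r hr l s hs _ _

/-- averaging over translations -/
lemma int_avg (F : TT d → ℝ) (hF : Continuous F) (m : Fin d → ℕ) (B : ℝ)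
    (h : ∀ x : Fin d → ℝ, (∑ w ∈ grid m, F (pt (x + gp (NN m) w))) / NT m ≤ B) :
    ∫ y, F y ≤ B := by
  have hN0 : (0 : ℝ) < NT m := by exact_mod_cast NT_pos m
  have h1 : ∀ w : Fin d → ℝ, ∫ y, F (y + pt w) = ∫ y, F y := fun w =>
    integral_add_right_eq_self (μ := (volume : Measure (TT d))) F (pt w)
  have hc : ∀ w : Fin d → ℝ, Continuous (fun y : TT d => F (y + pt w)) := fun w => by fun_prop
  have h2 : ∫ y, F y = ∫ y, (∑ w ∈ grid m, F (y + pt (gp (NN m) w))) / NT m := by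
    rw [integral_div, integral_finsetSum _ (fun w _ => rint _ (hc _))]
    simp only [h1]
    rw [Finset.sum_const, grid_card, nsmul_eq_mul]
    field_simp
  rw [h2]
  calc _ ≤ ∫ _y : TT d, B := by
        refine integral_mono (rint _ ?_) (rint _ continuous_const) (fun y => ?_)
        · exact (continuous_finsetSum _ (fun w _ => hc _)).div_const _
        · obtain ⟨x, rfl⟩ := exists_real y
          have h3 := h x
          simp only [pt_add] at h3
          exact h3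
    _ = _ := by
        rw [integral_const]
        simp

/-- the pair bound -/
def PB (d : ℕ) (a lam δ K : ℝ) : ℝ :=
  (K ^ (lam - 1) * (4 * CA lam) ^ d) ^ (2 * (a - lam)) * (K ^ (lam - 1)) ^ 2 * (C3 d lam * K ^ δ)

lemma PB_pos (a lam δ K : ℝ) (hl : 1 < lam) (hK : 0 < K) : 0 < PB d a lam δ K := by
  have h1 := CA_pos lam hl
  have h2 := C3_pos (d := d) lam hl
  unfold PB
  positivity

lemma psi_pair (r : ℝ) (hr : 0 < r) (a lam δ : ℝ) (hl : 1 < lam) (hla : lam ≤ a) (hδ0 : 0 < δ)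
    (hδ1 : δ ≤ 1) (l : ℕ) (s t : Fin d → ℕ) (hs : s ∈ Sl d l) (ht : t ∈ Sl d l)
    (Zs Zt : Finset (Fin d → ℕ)) (hZs : Zs ⊆ grid s) (hZt : Zt ⊆ grid t) (K : ℕ) (hK1 : 1 ≤ K)
    (hKs : #Zs ≤ K) (hKt : #Zt ≤ K) (ws wt : (Fin d → ℕ) → ℂ) (hws : ∀ ζ, ‖ws ζ‖ ≤ 1)
    (hwt : ∀ ζ, ‖wt ζ‖ ≤ 1) :
    ∫ y : TT d, (‖psi r s Zs ws y‖ * ‖psi r t Zt wt y‖) ^ a
      ≤ (AK d r l ^ 2) ^ a * (PB d a lam δ K * (#Zs / 2 ^ l) * (y0 δ) ^ (dst s t)) := by
  have hN0 : (0 : ℝ) < NT (mx s t) := by exact_mod_cast NT_pos (mx s t)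
  have hA := AK_pos (d := d) r l
  have ha : 0 < a := by linarith
  refine int_avg _ ?_ (mx s t) _ (fun x => ?_)
  · have : Continuous (fun y : TT d => ‖psi r s Zs ws y‖ * ‖psi r t Zt wt y‖) := by fun_prop
    exact this.rpow_const (fun _ => Or.inr ha.le)
  · have h1 := pair_avg a lam δ hl hla hδ0 hδ1 l s t hs ht Zs Zt hZs hZt K hK1 hKs hKt x
    calc _ ≤ (∑ w ∈ grid (mx s t), (AK d r l ^ 2) ^ a * (uu s Zs (x + gp (NN (mx s t)) w)
          * uu t Zt (x + gp (NN (mx s t)) w)) ^ a) / NT (mx s t) := by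
          refine div_le_div_of_nonneg_right (Finset.sum_le_sum (fun w _ => ?_)) hN0.le
          have e1 := psi_le r hr l s hs Zs ws hws (x + gp (NN (mx s t)) w)
          have e2 := psi_le r hr l t ht Zt wt hwt (x + gp (NN (mx s t)) w)
          have n1 := uu_nonneg s Zs (x + gp (NN (mx s t)) w)
          have n2 := uu_nonneg t Zt (x + gp (NN (mx s t)) w)
          rw [← Real.mul_rpow (by positivity) (mul_nonneg n1 n2)]
          refine Real.rpow_le_rpow (by positivity) ?_ ha.le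
          refine (mul_le_mul e1 e2 (norm_nonneg _) (mul_nonneg hA.le n1)).trans (le_of_eq ?_)
          ring
      _ = (AK d r l ^ 2) ^ a * ((∑ w ∈ grid (mx s t), (uu s Zs (x + gp (NN (mx s t)) w)
          * uu t Zt (x + gp (NN (mx s t)) w)) ^ a) / NT (mx s t)) := by
          rw [← Finset.mul_sum, mul_div_assoc]
      _ ≤ _ := by
          refine mul_le_mul_of_nonneg_left (h1.trans (le_of_eq ?_)) (by positivity)
          unfold PB
          ring

/-- the integral of the power of the test function -/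
lemma psi_power (r : ℝ) (hr : 0 < r) (a lam δ : ℝ) (hl : 1 < lam) (hla : lam ≤ a) (hδ0 : 0 < δ)
    (hδ1 : δ ≤ 1) (l : ℕ) (S : Finset (Fin d → ℕ)) (hS : S ⊆ Sl d l)
    (Z : (Fin d → ℕ) → Finset (Fin d → ℕ)) (hZ : ∀ s ∈ S, Z s ⊆ grid s) (K : ℕ) (hK1 : 1 ≤ K)
    (hK : ∀ s ∈ S, #(Z s) ≤ K) (w : (Fin d → ℕ) → (Fin d → ℕ) → ℂ)
    (hw : ∀ s ζ, ‖w s ζ‖ ≤ 1) :
    ∃ Cg : ℝ, 0 < Cg ∧ Cg = ((2 / (1 - 1 / (2 : ℝ) ^ (δ / (8 * a)))) ^ d) ^ (2 * a)
        * (2 / (1 - (2 : ℝ) ^ (-(δ / 4)))) ^ d ∧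
    ∫ y : TT d, ‖∑ s ∈ S, psi r s (Z s) (w s) y‖ ^ (2 * a)
      ≤ Cg * ((AK d r l ^ 2) ^ a * PB d a lam δ K) * ((∑ s ∈ S, (#(Z s) : ℝ)) / 2 ^ l) := by
  have ha : 0 < a := by linarith
  have hKr : (0 : ℝ) < K := by
    have : 0 < K := by omega
    exact_mod_cast this
  set ω : ℝ := (2 : ℝ) ^ (δ / (8 * a)) with hω
  have hω1 : 1 < ω := Real.one_lt_rpow (by norm_num) (by positivity)
  have hω' : 1 / ω < 1 := by rw [div_lt_one (by linarith)]; exact hω1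
  set yy : ℝ := (2 : ℝ) ^ (-(δ / 4)) with hyy
  have hyy0 : 0 < yy := by positivity
  have hyy1 : yy < 1 := Real.rpow_lt_one_of_one_lt_of_neg (by norm_num) (by linarith)
  have hprod : ω ^ (2 * a) * y0 δ = yy := by
    have e1 : ω ^ (2 * a) = (2 : ℝ) ^ (δ / 4) := by
      rw [hω, ← Real.rpow_mul (by norm_num)]
      congr 1
      field_simp
      ring
    have e2 : y0 δ = (2 : ℝ) ^ (-(δ / 2)) := by
      unfold y0
      rw [Real.sqrt_eq_rpow, ← Real.rpow_neg (by norm_num), ← Real.rpow_mul (by norm_num)]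
      congr 1
      ring
    rw [e1, e2, hyy, ← Real.rpow_add (by norm_num)]
    congr 1
    ring
  set Cω := (2 / (1 - 1 / ω)) ^ d with hCω
  have hCω0 : 0 < Cω := by
    have : 0 < 1 - 1 / ω := by linarith
    positivity
  set Cy := (2 / (1 - yy)) ^ d with hCy
  have hCy0 : 0 < Cy := by
    have : 0 < 1 - yy := by linarith
    positivity
  have hPB := PB_pos (d := d) a lam δ K hl hKr
  have hA := AK_pos (d := d) r l
  refine ⟨Cω ^ (2 * a) * Cy, by positivity, rfl, ?_⟩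
  have hgeo : ∀ y : ℝ, 0 ≤ y → y < 1 → ∀ s : Fin d → ℕ,
      ∑ t ∈ S, y ^ (dst s t) ≤ (2 / (1 - y)) ^ d := fun y hy0 hy1 s =>
    (Finset.sum_le_sum_of_subset_of_nonneg hS (fun t _ _ => by positivity)).trans
      (geo_sum y hy0 hy1 s l)
  have hp : ∀ x : TT d, ‖∑ s ∈ S, psi r s (Z s) (w s) x‖ ^ (2 * a)
      ≤ Cω ^ (2 * a) * ∑ s ∈ S, ∑ t ∈ S,
        (ω ^ (2 * a)) ^ (dst s t) * (‖psi r s (Z s) (w s) x‖ * ‖psi r t (Z t) (w t) x‖) ^ a := by
    intro x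
    refine (Real.rpow_le_rpow (norm_nonneg _) (norm_sum_le _ _) (by linarith)).trans ?_
    exact pointwise_r S (fun s => ‖psi r s (Z s) (w s) x‖) (fun s _ => norm_nonneg _) ω hω1 Cω
      hCω0.le (fun s _ => hgeo (1 / ω) (by positivity) hω' s) a ha
  have hcp : ∀ s t, Continuous (fun x : TT d =>
      (ω ^ (2 * a)) ^ (dst s t) * (‖psi r s (Z s) (w s) x‖ * ‖psi r t (Z t) (w t) x‖) ^ a) := by
    intro s t
    have : Continuous (fun x : TT d => ‖psi r s (Z s) (w s) x‖ * ‖psi r t (Z t) (w t) x‖) := by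
      fun_prop
    exact (this.rpow_const (fun _ => Or.inr ha.le)).const_mul _
  have hc1 : Continuous (fun x : TT d => ‖∑ s ∈ S, psi r s (Z s) (w s) x‖ ^ (2 * a)) := by
    have : Continuous (fun x : TT d => ‖∑ s ∈ S, psi r s (Z s) (w s) x‖) := by fun_prop
    exact this.rpow_const (fun _ => Or.inr (by linarith))
  have hc2 : ∀ s, Continuous (fun x : TT d => ∑ t ∈ S,
      (ω ^ (2 * a)) ^ (dst s t) * (‖psi r s (Z s) (w s) x‖ * ‖psi r t (Z t) (w t) x‖) ^ a) :=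
    fun s => continuous_finsetSum _ (fun t _ => hcp s t)
  have hc3 : Continuous (fun x : TT d => Cω ^ (2 * a) * ∑ s ∈ S, ∑ t ∈ S,
      (ω ^ (2 * a)) ^ (dst s t) * (‖psi r s (Z s) (w s) x‖ * ‖psi r t (Z t) (w t) x‖) ^ a) :=
    (continuous_finsetSum _ (fun s _ => hc2 s)).const_mul _
  refine (integral_mono (rint _ hc1) (rint _ hc3) hp).trans ?_
  rw [integral_const_mul, integral_finsetSum _ (fun s _ => rint _ (hc2 s))]
  have hs : ∀ s ∈ S, ∫ x : TT d, ∑ t ∈ S,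
      (ω ^ (2 * a)) ^ (dst s t) * (‖psi r s (Z s) (w s) x‖ * ‖psi r t (Z t) (w t) x‖) ^ a
      ≤ (AK d r l ^ 2) ^ a * PB d a lam δ K * Cy * (#(Z s) / 2 ^ l) := by
    intro s hs
    rw [integral_finsetSum _ (fun t _ => rint _ (hcp s t))]
    have ht : ∀ t ∈ S, ∫ x : TT d,
        (ω ^ (2 * a)) ^ (dst s t) * (‖psi r s (Z s) (w s) x‖ * ‖psi r t (Z t) (w t) x‖) ^ a
        ≤ ((AK d r l ^ 2) ^ a * PB d a lam δ K * (#(Z s) / 2 ^ l)) * yy ^ (dst s t) := by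
      intro t ht
      rw [integral_const_mul]
      have e1 := psi_pair r hr a lam δ hl hla hδ0 hδ1 l s t (hS hs) (hS ht) (Z s) (Z t) (hZ s hs)
        (hZ t ht) K hK1 (hK s hs) (hK t ht) (w s) (w t) (hw s) (hw t)
      calc _ ≤ (ω ^ (2 * a)) ^ (dst s t) * ((AK d r l ^ 2) ^ a
            * (PB d a lam δ K * (#(Z s) / 2 ^ l) * (y0 δ) ^ (dst s t))) :=
            mul_le_mul_of_nonneg_left e1 (by positivity)
        _ = ((AK d r l ^ 2) ^ a * PB d a lam δ K * (#(Z s) / 2 ^ l))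
            * (ω ^ (2 * a) * y0 δ) ^ (dst s t) := by
            rw [mul_pow]
            ring
        _ = _ := by rw [hprod]
    refine (Finset.sum_le_sum ht).trans ?_
    rw [← Finset.mul_sum]
    calc _ ≤ ((AK d r l ^ 2) ^ a * PB d a lam δ K * (#(Z s) / 2 ^ l)) * Cy :=
          mul_le_mul_of_nonneg_left (hgeo yy hyy0.le hyy1 s) (by positivity)
      _ = _ := by ring
  refine (mul_le_mul_of_nonneg_left (Finset.sum_le_sum hs) (by positivity)).trans ?_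
  rw [← Finset.mul_sum, ← Finset.sum_div]
  exact le_of_eq (by ring)

lemma fa_int (r : ℝ) (φ : TT d → ℂ) (hφ : Integrable φ volume) (s ζ : Fin d → ℕ) :
    fa (bc r φ) s ζ = ∫ y, φ y * conj (TK r s (gp (NN s) ζ) y) := by
  rw [fa_bc]
  unfold TK
  rw [pair_cf φ hφ]
  refine Finset.sum_congr rfl (fun k _ => ?_)
  rw [Complex.conj_conj]
  ring

/-- duality -/
lemma duality (p r : ℝ) (hp1 : 1 < p) (φ : TT d → ℂ) (hφ : MemLp φ (ENNReal.ofReal p) volume)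
    (hφ1 : ∫ x, ‖φ x‖ ^ p ≤ 1) (S : Finset (Fin d → ℕ)) (Z : (Fin d → ℕ) → Finset (Fin d → ℕ)) :
    ∃ w : (Fin d → ℕ) → (Fin d → ℕ) → ℂ, (∀ s ζ, ‖w s ζ‖ ≤ 1) ∧
      ∑ s ∈ S, ∑ ζ ∈ Z s, ‖fa (bc r φ) s ζ‖
        ≤ (∫ y : TT d, ‖∑ s ∈ S, psi r s (Z s) (w s) y‖ ^ (p / (p - 1))) ^ ((p - 1) / p) := by
  set q := p / (p - 1) with hq
  have hp0 : 0 < p := by linarith
  have hpq : p.HolderConjugate q := Real.HolderConjugate.conjExponent hp1
  have hφi : Integrable φ volume :=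
    hφ.integrable (by
      rw [← ENNReal.ofReal_one]
      exact ENNReal.ofReal_le_ofReal hp1.le)
  refine ⟨fun s ζ => fa (bc r φ) s ζ / ‖fa (bc r φ) s ζ‖, ?_, ?_⟩
  · intro s ζ
    rw [norm_div, Complex.norm_real, norm_norm]
    exact div_self_le_one _
  set w : (Fin d → ℕ) → (Fin d → ℕ) → ℂ := fun s ζ => fa (bc r φ) s ζ / ‖fa (bc r φ) s ζ‖ with hw
  have hGc : Continuous (fun x : TT d => ∑ s ∈ S, psi r s (Z s) (w s) x) :=
    continuous_finsetSum _ (fun s _ => (psi r s (Z s) (w s)).continuous)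
  have hG : MemLp (fun x : TT d => ∑ s ∈ S, psi r s (Z s) (w s) x) (ENNReal.ofReal q) volume :=
    hGc.memLp_of_hasCompactSupport (HasCompactSupport.of_compactSpace _)
  have h1 := integral_mul_norm_le_Lp_mul_Lq hpq hφ hG
  have hint : ∀ (K : C(TT d, ℂ)), Integrable (fun x => φ x * conj (K x)) volume := by
    intro K
    refine hφi.mul_bdd (c := ‖K‖) ?_ ?_
    · have : Continuous (fun x : TT d => conj (K x)) := by fun_prop
      exact this.aestronglyMeasurable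
    · refine Filter.Eventually.of_forall (fun x => ?_)
      rw [RCLike.norm_conj]
      exact K.norm_coe_le_norm x
  have hpair : ∫ x, φ x * conj (∑ s ∈ S, psi r s (Z s) (w s) x)
      = ((∑ s ∈ S, ∑ ζ ∈ Z s, ‖fa (bc r φ) s ζ‖ : ℝ) : ℂ) := by
    have e1 : ∀ x, φ x * conj (∑ s ∈ S, psi r s (Z s) (w s) x)
        = ∑ s ∈ S, ∑ ζ ∈ Z s, conj (w s ζ) * (φ x * conj (TK r s (gp (NN s) ζ) x)) := by
      intro x
      rw [map_sum, Finset.mul_sum]
      refine Finset.sum_congr rfl (fun s _ => ?_)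
      rw [psi_apply, map_sum, Finset.mul_sum]
      refine Finset.sum_congr rfl (fun ζ _ => ?_)
      rw [map_mul]
      ring
    simp only [e1]
    rw [integral_finsetSum _ (fun s _ => integrable_finsetSum _ (fun ζ _ => (hint _).const_mul _))]
    push_cast
    refine Finset.sum_congr rfl (fun s _ => ?_)
    rw [integral_finsetSum _ (fun ζ _ => (hint _).const_mul _)]
    refine Finset.sum_congr rfl (fun ζ _ => ?_)
    rw [integral_const_mul, ← fa_int r φ hφi, hw]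
    simp only
    rw [map_div₀, Complex.conj_ofReal, div_mul_eq_mul_div, mul_comm, Complex.mul_conj']
    rcases (norm_nonneg (fa (bc r φ) s ζ)).eq_or_lt with h0 | h0
    · rw [← h0]; simp
    · have : ((‖fa (bc r φ) s ζ‖ : ℝ) : ℂ) ≠ 0 := by exact_mod_cast h0.ne'
      field_simp
  have hn : 0 ≤ ∑ s ∈ S, ∑ ζ ∈ Z s, ‖fa (bc r φ) s ζ‖ :=
    Finset.sum_nonneg (fun s _ => Finset.sum_nonneg (fun ζ _ => norm_nonneg _))
  have h2 : ∑ s ∈ S, ∑ ζ ∈ Z s, ‖fa (bc r φ) s ζ‖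
      ≤ ∫ x, ‖φ x‖ * ‖∑ s ∈ S, psi r s (Z s) (w s) x‖ := by
    have e1 : ∑ s ∈ S, ∑ ζ ∈ Z s, ‖fa (bc r φ) s ζ‖
        = ‖∫ x, φ x * conj (∑ s ∈ S, psi r s (Z s) (w s) x)‖ := by
      rw [hpair, Complex.norm_real, Real.norm_eq_abs, abs_of_nonneg hn]
    rw [e1]
    refine (norm_integral_le_integral_norm _).trans (le_of_eq ?_)
    congr 1
    funext x
    rw [norm_mul, RCLike.norm_conj]
  have h3 : (∫ x, ‖φ x‖ ^ p) ^ (1 / p) ≤ 1 :=
    Real.rpow_le_one (integral_nonneg (fun x => by positivity)) hφ1 (by positivity)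
  have hq' : 1 / q = (p - 1) / p := by
    rw [hq, one_div_div]
  rw [hq'] at h1
  have h4 : 0 ≤ (∫ y : TT d, ‖∑ s ∈ S, psi r s (Z s) (w s) y‖ ^ q) ^ ((p - 1) / p) :=
    Real.rpow_nonneg (integral_nonneg (fun x => by positivity)) _
  calc _ ≤ _ := h2
    _ ≤ _ := h1
    _ ≤ 1 * (∫ y : TT d, ‖∑ s ∈ S, psi r s (Z s) (w s) y‖ ^ q) ^ ((p - 1) / p) :=
        mul_le_mul_of_nonneg_right h3 h4
    _ = _ := one_mul _

lemma PB_le (a lam δ ε : ℝ) (hl : 1 < lam) (hla : lam ≤ a)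
    (he : (lam - 1) * (2 * (a - lam)) + (lam - 1) * 2 + δ ≤ ε) (K : ℝ) (hK : 1 ≤ K) :
    PB d a lam δ K ≤ ((4 * CA lam) ^ d) ^ (2 * (a - lam)) * C3 d lam * K ^ ε := by
  have hK0 : 0 < K := by linarith
  have h1 := CA_pos lam hl
  have h2 := C3_pos (d := d) lam hl
  unfold PB
  rw [Real.mul_rpow (by positivity) (by positivity), ← Real.rpow_natCast (K ^ (lam - 1)) 2,
    ← Real.rpow_mul hK0.le, ← Real.rpow_mul hK0.le]
  push_cast
  have e1 : K ^ ((lam - 1) * (2 * (a - lam))) * K ^ ((lam - 1) * 2) * K ^ δ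
      = K ^ ((lam - 1) * (2 * (a - lam)) + (lam - 1) * 2 + δ) := by
    rw [Real.rpow_add hK0, Real.rpow_add hK0]
  have e2 := Real.rpow_le_rpow_of_exponent_le hK he
  calc _ = ((4 * CA lam) ^ d) ^ (2 * (a - lam)) * C3 d lam
        * (K ^ ((lam - 1) * (2 * (a - lam))) * K ^ ((lam - 1) * 2) * K ^ δ) := by ring
    _ ≤ _ := by
        rw [e1]
        gcongr

/-- the computation with exponents -/
lemma final_real (p r a ε v X J Cg P c5 cA N K A : ℝ) (hp1 : 1 < p) (hp2 : p < 2)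
    (h2a : 2 * a = p / (p - 1)) (hε : 0 < ε) (hv : 0 < v) (hX : 0 < X) (hJ0 : 0 ≤ J) (hCg : 0 < Cg) (hP : 0 < P)
    (hc5 : 0 < c5) (hcA : 0 < cA) (hN : 0 < N) (hK : 1 ≤ K) (hA : A = cA * N ^ (1 - r))
    (hPc : P ≤ c5 * K ^ ε) (h1 : v * X ≤ J ^ ((p - 1) / p))
    (hpow : J ≤ Cg * ((A ^ 2) ^ a * P) * (X / N)) :
    X * v ^ p ≤ (Cg * c5) ^ (p - 1) * cA ^ p * K ^ ε * N ^ (1 - r * p) := by
  have hp0 : 0 < p := by linarith
  have hp10 : 0 < p - 1 := by linarith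
  have ha0 : 0 ≤ a := by
    have : 0 < p / (p - 1) := by positivity
    linarith
  have hA0 : 0 < A := by rw [hA]; positivity
  have hvX : 0 ≤ v * X := by positivity
  have h2 : (v * X) ^ p ≤ J ^ (p - 1) := by
    refine (Real.rpow_le_rpow hvX h1 hp0.le).trans (le_of_eq ?_)
    rw [← Real.rpow_mul hJ0]
    congr 1
    field_simp
  obtain ⟨D, hD⟩ : ∃ D, D = Cg * ((A ^ 2) ^ a * P) := ⟨_, rfl⟩
  rw [← hD] at hpow
  have hD0 : 0 < D := by rw [hD]; positivity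
  have h3 : J ^ (p - 1) ≤ (D * (X / N)) ^ (p - 1) := Real.rpow_le_rpow hJ0 hpow hp10.le
  have h4 : (D * (X / N)) ^ (p - 1) = D ^ (p - 1) * X ^ (p - 1) / N ^ (p - 1) := by
    rw [Real.mul_rpow hD0.le (by positivity), Real.div_rpow hX.le hN.le]
    ring
  have h5 : (v * X) ^ p = (X * v ^ p) * X ^ (p - 1) := by
    rw [Real.mul_rpow hv.le hX.le]
    have : X ^ p = X * X ^ (p - 1) := by
      have e := Real.rpow_add hX 1 (p - 1)
      rw [Real.rpow_one, add_sub_cancel] at e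
      exact e
    rw [this]
    ring
  have h6 : X * v ^ p ≤ D ^ (p - 1) / N ^ (p - 1) := by
    have hXp : 0 < X ^ (p - 1) := by positivity
    have h7 : (X * v ^ p) * X ^ (p - 1) ≤ (D ^ (p - 1) / N ^ (p - 1)) * X ^ (p - 1) := by
      rw [← h5]
      refine (h2.trans h3).trans (le_of_eq ?_)
      rw [h4]
      ring
    exact le_of_mul_le_mul_right h7 hXp
  have h8 : D ^ (p - 1) ≤ (Cg * c5) ^ (p - 1) * cA ^ p * K ^ ε * N ^ (p - r * p) := by
    have e1 : D ≤ (Cg * c5) * (A ^ 2) ^ a * K ^ ε := by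
      rw [hD]
      calc Cg * ((A ^ 2) ^ a * P) ≤ Cg * ((A ^ 2) ^ a * (c5 * K ^ ε)) := by gcongr
        _ = _ := by ring
    have e2 : ((A ^ 2) ^ a) ^ (p - 1) = cA ^ p * N ^ (p - r * p) := by
      rw [← Real.rpow_natCast A 2, ← Real.rpow_mul hA0.le, ← Real.rpow_mul hA0.le]
      have : ((2 : ℕ) : ℝ) * a * (p - 1) = p := by
        push_cast
        rw [h2a]
        field_simp
      rw [this, hA, Real.mul_rpow hcA.le (by positivity), ← Real.rpow_mul hN.le]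
      congr 2
      ring
    have e3 : (K ^ ε) ^ (p - 1) ≤ K ^ ε := by
      rw [← Real.rpow_mul (by linarith)]
      exact Real.rpow_le_rpow_of_exponent_le hK (by nlinarith)
    calc D ^ (p - 1) ≤ ((Cg * c5) * (A ^ 2) ^ a * K ^ ε) ^ (p - 1) :=
          Real.rpow_le_rpow hD0.le e1 hp10.le
      _ = (Cg * c5) ^ (p - 1) * ((A ^ 2) ^ a) ^ (p - 1) * (K ^ ε) ^ (p - 1) := by
          rw [Real.mul_rpow (by positivity) (by positivity),
            Real.mul_rpow (by positivity) (by positivity)]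
      _ ≤ (Cg * c5) ^ (p - 1) * (cA ^ p * N ^ (p - r * p)) * K ^ ε := by
          rw [e2]
          gcongr
      _ = _ := by ring
  calc X * v ^ p ≤ D ^ (p - 1) / N ^ (p - 1) := h6
    _ ≤ ((Cg * c5) ^ (p - 1) * cA ^ p * K ^ ε * N ^ (p - r * p)) / N ^ (p - 1) := by
        gcongr
    _ = _ := by
        have : N ^ (1 - r * p) = N ^ (p - r * p) / N ^ (p - 1) := by
          rw [← Real.rpow_sub hN]
          congr 1
          ring
        rw [this]
        ring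

/-- the level set inequality -/
theorem level (d : ℕ) (p r ε : ℝ) (hp1 : 1 < p) (hp2 : p < 2) (hr : 0 < r) (hε : 0 < ε) :
    ∃ C : ℝ, 0 < C ∧ ∀ φ : TT d → ℂ, MemLp φ (ENNReal.ofReal p) volume →
      ∫ x, ‖φ x‖ ^ p ≤ 1 → ∀ (l : ℕ) (S : Finset (Fin d → ℕ))
      (Z : (Fin d → ℕ) → Finset (Fin d → ℕ)) (K : ℕ) (v : ℝ), S ⊆ Sl d l → 1 ≤ K → 0 < v →
      (∀ s ∈ S, Z s ⊆ grid s ∧ #(Z s) ≤ K ∧ ∀ ζ ∈ Z s, v ≤ ‖fa (bc r φ) s ζ‖) →
      (∑ s ∈ S, (#(Z s) : ℝ)) * v ^ p ≤ C * (K : ℝ) ^ ε * ((2 : ℝ) ^ l) ^ (1 - r * p) := by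
  have hp0 : 0 < p := by linarith
  have hp10 : 0 < p - 1 := by linarith
  set a : ℝ := p / (2 * (p - 1)) with ha
  have ha1 : 1 < a := by
    rw [ha, lt_div_iff₀ (by linarith)]
    linarith
  have ha0 : 0 < a := by linarith
  have h2a : 2 * a = p / (p - 1) := by
    rw [ha]
    field_simp
  set δ : ℝ := min 1 (ε / 2) with hδ
  have hδ0 : 0 < δ := lt_min one_pos (by linarith)
  have hδ1 : δ ≤ 1 := min_le_left _ _
  have hδ2 : δ ≤ ε / 2 := min_le_right _ _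
  set μ : ℝ := min (a - 1) (ε / (4 * a)) with hμ
  have hμ0 : 0 < μ := lt_min (by linarith) (by positivity)
  have hμ1 : μ ≤ a - 1 := min_le_left _ _
  have hμ2 : μ * (4 * a) ≤ ε := by
    rw [← le_div_iff₀ (by positivity)]
    exact min_le_right _ _
  set lam : ℝ := 1 + μ with hlam
  have hl : 1 < lam := by linarith
  have hla : lam ≤ a := by linarith
  have he : (lam - 1) * (2 * (a - lam)) + (lam - 1) * 2 + δ ≤ ε := by
    have : lam - 1 = μ := by rw [hlam]; ring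
    rw [this]
    nlinarith
  set Cg : ℝ := ((2 / (1 - 1 / (2 : ℝ) ^ (δ / (8 * a)))) ^ d) ^ (2 * a)
        * (2 / (1 - (2 : ℝ) ^ (-(δ / 4)))) ^ d with hCg
  have hCg0 : 0 < Cg := by
    have h1 : (1 : ℝ) < (2 : ℝ) ^ (δ / (8 * a)) := Real.one_lt_rpow (by norm_num) (by positivity)
    have h2 : 1 / (2 : ℝ) ^ (δ / (8 * a)) < 1 := by rw [div_lt_one (by linarith)]; exact h1
    have h3 : (2 : ℝ) ^ (-(δ / 4)) < 1 :=
      Real.rpow_lt_one_of_one_lt_of_neg (by norm_num) (by linarith)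
    have h4 : 0 < 1 - 1 / (2 : ℝ) ^ (δ / (8 * a)) := by linarith
    have h5 : 0 < 1 - (2 : ℝ) ^ (-(δ / 4)) := by linarith
    positivity
  set c5 : ℝ := ((4 * CA lam) ^ d) ^ (2 * (a - lam)) * C3 d lam with hc5
  have hc50 : 0 < c5 := by
    have h1 := CA_pos lam hl
    have h2 := C3_pos (d := d) lam hl
    positivity
  set cA : ℝ := 2 ^ d * (2 ^ r) ^ d with hcA
  have hcA0 : 0 < cA := by positivity
  refine ⟨(Cg * c5) ^ (p - 1) * cA ^ p, by positivity, ?_⟩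
  intro φ hφ hφ1 l S Z K v hS hK1 hv hZ
  have hKr : (1 : ℝ) ≤ K := by exact_mod_cast hK1
  have hX0 : 0 ≤ ∑ s ∈ S, (#(Z s) : ℝ) := Finset.sum_nonneg (fun s _ => Nat.cast_nonneg _)
  rcases hX0.eq_or_lt with h0 | hX1
  · rw [← h0, zero_mul]
    positivity
  obtain ⟨w, hw, hdu⟩ := duality p r hp1 φ hφ hφ1 S Z
  obtain ⟨Cg', hCg', hCe, hpow⟩ := psi_power r hr a lam δ hl hla hδ0 hδ1 l S hS Z
    (fun s hs => (hZ s hs).1) K hK1 (fun s hs => (hZ s hs).2.1) w hw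
  rw [← hCg] at hCe
  rw [hCe, h2a] at hpow
  have hPB := PB_le (d := d) a lam δ ε hl hla he K hKr
  have hPB0 := PB_pos (d := d) a lam δ K hl (by linarith)
  refine final_real p r a ε v _ _ Cg _ c5 cA _ K (AK d r l) hp1 hp2 h2a hε hv hX1
    (integral_nonneg (fun x => Real.rpow_nonneg (norm_nonneg _) _)) hCg0 hPB0 hc50 hcA0
    (by positivity) hKr rfl hPB (le_trans ?_ hdu) hpow
  rw [Finset.mul_sum]
  refine Finset.sum_le_sum (fun s hs => ?_)
  have : ∑ ζ ∈ Z s, v ≤ ∑ ζ ∈ Z s, ‖fa (bc r φ) s ζ‖ :=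
    Finset.sum_le_sum (fun ζ hζ => (hZ s hs).2.2 ζ hζ)
  rwa [Finset.sum_const, nsmul_eq_mul, mul_comm] at this

end

end Pool.Agent.H50.UBX
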